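import Pool.Agent.V11231.ULR.Main

/-!
# Local reductions from gap 3-SAT to unique games must be large

The definitions used in the statement are `Represents`, `violated`, `Reads`, `SatOn` in
`Pool/Agent/TH700/UG/Defs.lean`, and `Clause`, `Satisfies`, `falsified` in
`Pool/Agent/W888/GX/Mix.lean`.

All known reductions from gap 3-SAT to unique games and their relatives are local: every assignment
has an honest labelling, each label of which depends on few of the variables, and that the honest
labelling of a satisfying assignment violates at most a fraction `ε` of the edges is seen from
gadgets, each of which depends on few variables. `Represents F D ε s t π` says this for the formula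
`F` and the unique game with the edges `(s e, t e)` and permutations `π e`.

The theorem: for some formulas `F` in `n` variables with `O(n)` clauses, at most a fraction
`7 / 8 + η` of which can be satisfied, every unique game which represents `F` with locality `D` and
completeness `1 - ε`, and in which no labelling satisfies a fraction `1 - γ` of the edges, has `N`
vertices with `N ^ r > c n / (D log (2 / γ))`, for all `r ≤ 1` with `r γ ^ 2 ≥ 2 ^ 30 ε log (2 / r)`.
So a local reduction which proves hardness for value `1 - ε` against value `1 / 2` has size at least
`(n / D) ^ (c / (ε log (1 / ε)))`, and in a reduction of size `n ^ C` some label must depend on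
`n ^ (1 - O(C ε log (1 / ε)))` variables. This is unconditional; the alphabet and the constraint
graph are arbitrary.

Proof: for random formulas there is a pseudo-expectation of linear degree which satisfies all
clauses. Composed with the honest labellings it is a solution of level `n / D`, up to a constant, of
the mixed hierarchy (Sherali-Adams and the basic semidefinite program) of value `1 - ε`. The
rounding theorem for this hierarchy (starting result `SharpTradeoff`) gives a labelling of value
`1 - γ`.
-/

set_option autoImplicit false

namespace Pool.Agent.Results.MP_325f1f_lc.LocalReductions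

open Finset Pool.Agent.W888.GX Pool.Agent.TH700.UG

/-- For every `η > 0` there are `M` and `c > 0` such that for all large `n` there is a formula `F`
with at least `n` and at most `M n` clauses, with three literals each, over `n` variables, every
assignment of which falsifies at least a fraction `1 / 8 - η` of the clauses, and with the following
property. Let `0 < r ≤ 1`, `0 < γ < 1`, `ε > 0` and `2 ^ 30 ε log (2 / r) ≤ r γ ^ 2`. If a unique
game with vertices `V`, labels `A` and edges `(s e, t e)` represents `F` with locality `D ≥ 1` and
completeness `1 - ε`, and if every labelling satisfies less than a fraction `1 - γ` of the edges,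
then `D log (2 / γ) |V| ^ r > c n`. -/
theorem result : ∀ η : ℝ, 0 < η →
    ∃ M : ℕ, 1 ≤ M ∧ ∃ c : ℝ, 0 < c ∧ ∃ n₀ : ℕ, ∀ n : ℕ, n₀ ≤ n →
      ∃ (I : Type) (_ : Fintype I) (F : I → Clause 3 n),
        n ≤ Fintype.card I ∧ Fintype.card I ≤ M * n ∧
        (∀ z, (1 / 8 - η) * (Fintype.card I : ℝ) ≤ (falsified F z : ℝ)) ∧
        ∀ (D : ℕ) (r γ ε : ℝ) (V A E : Type) [Fintype V] [Fintype A] [DecidableEq A] [Fintype E]
          (s t : E → V) (π : E → Equiv.Perm A), 1 ≤ D → 0 < r → r ≤ 1 → 0 < γ → γ < 1 → 0 < ε →
          2 ^ 30 * (ε * Real.log (2 / r)) ≤ r * γ ^ 2 →
          Represents F D ε s t π →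
          (∀ x : V → A, ((univ.filter fun e => π e (x (s e)) = x (t e)).card : ℝ) <
            (1 - γ) * Fintype.card E) →
          c * n < D * (Real.log (2 / γ) * (Fintype.card V : ℝ) ^ r) :=
  fun η hη => Pool.Agent.V11231.ULR.main η hη

end Pool.Agent.Results.MP_325f1f_lc.LocalReductions
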