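import Pool.Agent.V11231.ULS.Lower
import Pool.Agent.V11231.ULS.Upper

set_option autoImplicit false

/-!
# Local search on unique games: a threshold at logarithmic radius

Local search with auxiliary states and an arbitrary local potential (`Pool.Agent.TH912.LG.Defs`).
Every vertex carries a state from a finite set `S` from which a label is read off; the potential is
the sum over all vertices of a real cost that is an arbitrary function of the radius-`r` view; an
improving move changes the states inside at most `m` balls of radius `t` and lowers the potential.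

* Lower bound. For every `k` there are a label set `Q`, a degree bound `Δ` and `c > 0` such that, on
  arbitrarily large unique games with label set `Q`, degrees at most `Δ` and value `1` (hence at
  least `1 - ε`), the following holds for all such local searches with
  `m (t + r + 1) ≤ c log n`: from every start that is invariant under the automorphisms of the game,
  a run of improving moves ends in a local optimum whose labelling satisfies at most a `1/k` fraction
  of the constraints.
* Upper bound. With the labels as states, the number of violated constraints as potential and moves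
  inside one ball of radius `t ≥ (12/δ) log (number of constraints) + 1`, every local optimum of every
  game, whatever its value `1 - ε` is, satisfies at least a fraction `1 - ε - δ` of the constraints.

The lower bound is as in the starting result `MP_ec946a_lc.LocalSearchThreshold` for 2-to-1 games
whose constraints pair up the labels differently (those games are far from unique), here for cyclic
covers of unique games; the upper bound there is for games with value `1` only.
-/

namespace Pool.Agent.Results.MP_325f1f_lc.LocalSearch

open Pool.Agent.TH912.LG Pool.Agent.V11231.ULS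

theorem result :
    -- value at most `1/k` up to radius `c log n`, on satisfiable unique games
    (∀ k : ℕ, 1 ≤ k → ∃ (Q : Type) (_ : Fintype Q) (Δ : ℕ) (c : ℝ), 0 < c ∧
      ∀ N : ℕ, ∃ (V : Type) (_ : Fintype V) (X : Game Q V),
        N ≤ Fintype.card V ∧ UniqueGame X ∧ Satisfiable X ∧ 0 < numCon X ∧
        (∀ v, (X.gr.neighborSet v).ncard ≤ Δ) ∧
        ∀ (S : Type) [Finite S] (lab : Bool → S → Q) (r m t : ℕ) (F : LocalCost Q S r)
          (start : V → S),
          (m * (t + r + 1) : ℝ) ≤ c * Real.log (Fintype.card V) →
          (∀ φ : V ≃ V, IsAut X φ → ∀ v, start (φ v) = start v) →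
          ∃ σ : V → S, Relation.ReflTransGen (Step F m t X) start σ ∧
            (∀ σ', ¬ Step F m t X σ σ') ∧
            k * numSat X (fun v => lab (X.side v) (σ v)) ≤ numCon X) ∧
    -- almost optimal from radius `(12/δ) log (number of constraints) + 1` on
    ∀ Q : Type, ∃ F : LocalCost Q Q 1,
      (∀ (V : Type) [Fintype V] (X : Game Q V) (σ : V → Q),
        F.total X σ = (numCon X : ℝ) - numSat X σ) ∧
      ∀ (V : Type) [Fintype V] (X : Game Q V) (σ : V → Q) (δ : ℝ) (t : ℕ),
        0 < δ → δ ≤ 1 → 12 / δ * Real.log (numCon X) + 1 ≤ t →
        (∀ σ', ¬ Step F 1 t X σ σ') →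
        ∀ L : V → Q, (numSat X L : ℝ) - δ * numCon X ≤ numSat X σ := by
  refine ⟨fun k hk => Pool.Agent.V11231.ULS.lower k hk, ?_⟩
  intro Q
  refine ⟨violCost Q, ?_, ?_⟩
  · intro V _ X σ
    rw [violCost_total, ← numSat_eq X σ]
    push_cast
    ring
  · intro V _ X σ ε t hε hε1 ht hσ L
    have hsum : (numSat X σ : ℝ) + (VS X σ).card = numCon X := by exact_mod_cast numSat_eq X σ
    have hsumL : (numSat X L : ℝ) + (VS X L).card = numCon X := by exact_mod_cast numSat_eq X L
    rcases Nat.eq_zero_or_pos (numCon X) with h0 | hpos
    · have h1 : (numSat X σ : ℝ) + (VS X σ).card = 0 := by rw [hsum, h0]; simp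
      have h2 : (numSat X L : ℝ) + (VS X L).card = 0 := by rw [hsumL, h0]; simp
      rw [h0]
      have h3 : (0 : ℝ) ≤ numSat X σ := Nat.cast_nonneg _
      have h4 : (0 : ℝ) ≤ (VS X L).card := Nat.cast_nonneg _
      push_cast
      linarith
    have hcard : (1 : ℝ) ≤ numCon X := by exact_mod_cast hpos
    set δ : ℝ := ε / 3 with hδ
    have hδ0 : 0 < δ := by positivity
    have hlog : δ / 2 ≤ Real.log (1 + δ) := by
      have h1 := Real.one_sub_inv_le_log_of_pos (show (0 : ℝ) < 1 + δ by linarith)
      refine le_trans ?_ h1
      have h2 : 1 - (1 + δ)⁻¹ = δ / (1 + δ) := by field_simp; ring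
      rw [h2]
      exact div_le_div_of_nonneg_left hδ0.le (by linarith) (by linarith)
    have hlogpos : 0 < Real.log (1 + δ) := by linarith
    have hl0 : 0 ≤ Real.log (numCon X) := Real.log_nonneg hcard
    set N : ℕ := ⌊Real.log (numCon X) / Real.log (1 + δ)⌋₊ + 1 with hN
    have hN1 : Real.log (numCon X) / Real.log (1 + δ) ≤ N := by
      rw [hN]; push_cast
      exact (Nat.lt_floor_add_one _).le
    have hN2 : (N : ℝ) ≤ Real.log (numCon X) / Real.log (1 + δ) + 1 := by
      rw [hN]; push_cast
      have := Nat.floor_le (div_nonneg hl0 hlogpos.le)
      linarith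
    have hpow : (numCon X : ℝ) ≤ (1 + δ) ^ N := by
      rw [div_le_iff₀ hlogpos] at hN1
      rw [← Real.log_le_log_iff (by linarith) (by positivity), Real.log_pow]
      exact hN1
    have h3 : Real.log (numCon X) / Real.log (1 + δ) ≤ Real.log (numCon X) / (δ / 2) :=
      div_le_div_of_nonneg_left hl0 (by linarith) hlog
    have h4 : Real.log (numCon X) / (δ / 2) = 6 / ε * Real.log (numCon X) := by
      rw [hδ]
      field_simp
      ring
    have h5 : 6 / ε * Real.log (numCon X) ≤ 12 / ε * Real.log (numCon X) := by
      have : 6 / ε ≤ 12 / ε := by gcongr; norm_num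
      exact mul_le_mul_of_nonneg_right this hl0
    have h6 : (N : ℝ) ≤ t := by
      rw [h4] at h3
      linarith
    have h7 := Pool.Agent.V11231.ULS.upper X L σ δ hδ0 N t (by rw [← numCon_eq]; exact hpow)
      (by omega) (by exact_mod_cast h6) hσ
    have h8 : 3 * δ * numCon X = ε * numCon X := by rw [hδ]; ring
    rw [h8] at h7
    linarith

end Pool.Agent.Results.MP_325f1f_lc.LocalSearch
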