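import Pool.Agent.V11231.UTN.Tight
import Pool.Agent.V11231.UTN.Upper

/-!
# Gap unique games are hard for read-once tensor networks, even with cancellations

A tree tensor network `Net K V A W` (`Pool/Agent/TH700/PA/Defs.lean`) has leaves that read one
symbol of the alphabet `A` each (with a vector in `K ^ W` for each symbol); an inner node combines
the vectors of its two children by an arbitrary bilinear map. It accepts the input `x` if a linear
form of the vector of the root is not zero. The field `K` and the weights are arbitrary, so there
may be cancellations. The tree is arbitrary; if every right child is a leaf then this is a matrix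
product (a weighted ordered read-once branching program, for any order of the edges). The bond
dimension is `card W`.

The inputs are unique games with alphabet size `q` on `n + n` vertices whose edges are all pairs; a
leaf reads the permutation of one edge. There is a constant `Γ` such that for all `g ≥ 1`,
`q ≥ Γ g ^ 8` and `n ≥ Γ g ^ 4` networks with any number of nodes, which read every edge at most
once, reject all games of value at most `1 / g` and accept all games of value `1` (in particular
those which accept all games of value at least `1 - ε`, for any `ε`) have bond dimension at least
`q ^ (n / (Γ g ^ 2))`. This holds up to the factor `2 ^ μ` also for random networks which never accept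
a game of value at most `1 / g` and accept every game of value `1` with probability at least
`2 ^ (- μ)` (the deterministic case is `R = Unit`, `μ = 0`).

Conversely, for every threshold `s` linear networks over `ℚ` with `2 n ^ 2 - 1` nodes and bond
dimension `q ^ (2 n) (n ^ 2 + 1)` which read every edge once accept exactly the games in which some
labeling satisfies at least `s` edges.

The starting result on 2-to-1 games (`MP_ec946a_lc.TensorNetworks`) has the same lower bound for
inputs whose constraints are maps with fibres of at most two elements; the games used there are not
unique. Here only permutations occur, so this is a stronger form of that lower bound.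

Proof: as there; mixtures of games of value 1 with random labelings have small value, since a
permutation which is corrected at one label satisfies another pair of labels with probability at
most `1 / (q - 1)`. For the upper bound the numbers of satisfied edges of all labelings are read off
by interpolation from the values of their generating polynomials at `n ^ 2 + 1` points.
-/

set_option autoImplicit false

namespace Pool.Agent.Results.MP_325f1f_lc.TensorNetworks

open Pool.Agent.V11231.UTN
open Pool.Agent.TH700.PA (Net)

theorem result :
    (∃ Γ : ℕ, ∀ g q n : ℕ, 1 ≤ g → Γ * g ^ 8 ≤ q → Γ * g ^ 4 ≤ n →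
      ∀ (μ : ℕ) (R : Type) [Fintype R] [Nonempty R] (K W : R → Type) [∀ ρ, Field (K ρ)]
        [∀ ρ, Fintype (W ρ)] (T : ∀ ρ, Net (K ρ) (Fin n × Fin n) (Uniq q) (W ρ))
        (a : ∀ ρ, W ρ → K ρ),
        (∀ ρ e, (T ρ).reads e ≤ 1) →
        (∀ ρ x, ValueLe g x → (T ρ).value (a ρ) x = 0) →
        (∀ x, ValueOne x →
          Nat.card R ≤ 2 ^ μ * Nat.card {ρ // (T ρ).value (a ρ) x ≠ 0}) →
        ∃ ρ, q ^ n ≤ (2 ^ μ * Fintype.card (W ρ)) ^ (Γ * g ^ 2)) ∧
    (∀ q n s : ℕ, 1 ≤ n →
      ∃ (T : Net ℚ (Fin n × Fin n) (Uniq q) ((Fin n ⊕ Fin n → Fin q) × Fin (n * n + 1)))
        (a : (Fin n ⊕ Fin n → Fin q) × Fin (n * n + 1) → ℚ),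
        T.Linear ∧ (∀ e, T.reads e = 1) ∧ T.size = 2 * (n * n) - 1 ∧
          ∀ x, T.value a x ≠ 0 ↔
            ∃ LU LV : Fin n → Fin q, s ≤ Nat.card {e // Satd x LU LV e}) :=
  ⟨main_gameq, fun q _ s hn => upper_game q hn s⟩

end Pool.Agent.Results.MP_325f1f_lc.TensorNetworks
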